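import Pool.Agent.H93.PG.Targets

/-!
NEA: no forbidden repetitions with periods in `[L, L + kv)`.
-/

set_option autoImplicit false

open MeasureTheory Filter Topology Finset Pool.Agent.H93.PF Pool.Agent.H93.PG

namespace Pool.Agent.H49.PG

section

variable {d : ℕ} {m : ℕ → ℕ} {c : CT d m} {D : TD c} {B : Set ℤ} {z : ℤ → Fin d} {col : ℤ → ℕ}

/-- the last point before `x` -/
theorem prevPt (hT : Tz D B z col) (x : ℤ) :
    ∃ s ∈ B, ∃ g : ℕ, (g = D.L ∨ g = D.L + 1) ∧ Nx B s g ∧ s < x ∧ x ≤ s + g := by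
  obtain ⟨s0, hs0, hle⟩ := hT.below (x - 1)
  have key : ∀ (n : ℕ) (s : ℤ), s ∈ B → s < x → (x - s).toNat ≤ n →
      ∃ s ∈ B, ∃ g : ℕ, (g = D.L ∨ g = D.L + 1) ∧ Nx B s g ∧ s < x ∧ x ≤ s + g := by
    intro n
    induction n with
    | zero =>
      intro s hs h1 h2
      omega
    | succ n ih =>
      intro s hs h1 h2
      obtain ⟨g, hg, hN⟩ := hT.next s hs
      by_cases h : x ≤ s + g
      · exact ⟨s, hs, g, hg, hN, h1, h⟩
      · refine ih (s + g) hN.2.1 (by omega) ?_
        have := hN.1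
        omega
  exact key _ s0 hs0 (by omega) le_rfl

/-- small differences are gaps -/
theorem gapEq (hT : Tz D B z col) {s : ℤ} {q : ℕ} (hs : s ∈ B) (hsq : s + q ∈ B) (hq : 0 < q)
    (hq2 : q < 2 * D.L) : Nx B s q := by
  obtain ⟨g, hg, hN⟩ := hT.next s hs
  have h1 : s + g ≤ s + q := by
    by_contra h
    exact hN.2.2 (s + q) (by omega) (by omega) hsq
  by_cases h2 : g = q
  · rw [← h2]
    exact hN
  · exfalso
    obtain ⟨g', hg', hN'⟩ := hT.next (s + g) hN.2.1
    have h3 : ¬ (s + q < s + g + g') := fun h => hN'.2.2 (s + q) (by omega) (by omega) hsq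
    omega

theorem nxUniq {s : ℤ} {g g' : ℕ} (h : Nx B s g) (h' : Nx B s g') : g = g' := by
  rcases lt_trichotomy g g' with hlt | heq | hgt
  · exact absurd h.2.1 (h'.2.2 (s + g) (by have := h.1; omega) (by omega))
  · exact heq
  · exact absurd h'.2.1 (h.2.2 (s + g') (by have := h'.1; omega) (by omega))

theorem gapLen (hT : Tz D B z col) {s : ℤ} {g : ℕ} (hs : s ∈ B) (h : Nx B s g) :
    g = D.L ∨ g = D.L + 1 := by
  obtain ⟨g', hg', hN⟩ := hT.next s hs
  rw [nxUniq h hN]
  exact hg'

theorem content (hT : Tz D B z col) {s : ℤ} {g : ℕ} (hs : s ∈ B) (hN : Nx B s g) :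
    col s < D.N ∧ ∃ k < D.Q, ∀ (x : ℕ) (h : x < D.n),
      z (s + g + c.t.Y - D.n + x) = D.pc (col s) k ⟨x, h⟩ := by
  obtain ⟨h1, k, hk, h2⟩ := hT.pp s hs g hN
  exact ⟨h1, k, hk, fun x h => congrFun h2 ⟨x, h⟩⟩

/-- the tail after the marker word -/
theorem mark (hT : Tz D B z col) {s : ℤ} (hs : s ∈ B) {i : ℕ} (hi : i < D.K) :
    z (s + c.t.Y + i) = c.t.rt i := by
  have hb0 := D.fr.b0
  have hb1 := D.fr.b1
  obtain ⟨g, hg, hN⟩ := hT.next s hs
  rcases hg with rfl | rfl
  · exact hT.fs s hs hN i (by omega)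
  · exact hT.f1 s hs hN i (by omega)

/-- the reversed tail before the content -/
theorem before (hT : Tz D B z col) {s : ℤ} {g : ℕ} (hs : s ∈ B) (hN : Nx B s g) {i : ℕ}
    (hi : i < D.K) : z (s + g + c.t.Y - D.n - 1 - i) = c.t.rt i := by
  have hb0 := D.fr.b0
  have hb2 := D.fr.b2
  have hlen := D.fr.len
  have hL : D.L = D.n + D.N0 := rfl
  rcases gapLen hT hs hN with rfl | rfl
  · have h := hT.fs s hs hN (D.N0 - 1 - i) (by omega)
    rw [D.fr.pal i (by omega)] at h
    rw [← h]
    congr 1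
    omega
  · have h := hT.f3 s hs hN (D.k2 - 1 - i) (by omega)
    have e : D.k2 - 1 - (D.k2 - 1 - i) = i := by omega
    rw [e] at h
    rw [← h]
    congr 1
    omega

/-- the content starts with the marker word -/
theorem startE (hT : Tz D B z col) {s : ℤ} {g : ℕ} (hs : s ∈ B) (hN : Nx B s g) {i : ℕ}
    (hi : i < c.t.Y) : z (s + g + c.t.Y - D.n + i) = c.e := by
  obtain ⟨h1, k, hk, h2⟩ := content hT hs hN
  have hbig := D.big
  rw [h2 i (by omega)]
  have hm := D.cc.mem (col s) k h1 hk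
  unfold VV at hm
  classical
  rw [Finset.mem_filter] at hm
  have hS := hm.2.2.1
  rw [hS i (by omega) hi]
  exact c.ye _

/-- a short and a long frame differ -/
theorem frames (hT : Tz D B z col) {s s' : ℤ} (hs : s ∈ B) (hs' : s' ∈ B) (hN : Nx B s D.L)
    (hN' : Nx B s' (D.L + 1)) : ∃ x : ℕ, x < D.kv ∧ z (s + x) ≠ z (s' + x) := by
  have hb2 := D.fr.b2
  have hlen := D.fr.len
  have hK2 := D.K2
  have hkv : D.kv = c.t.Y + D.N0 + 1 + D.K := rfl
  have hY := c.t.Y0
  obtain ⟨j, hj, hne⟩ := c.t.c2 (c.t.Y + D.k1) (by omega)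
  refine ⟨c.t.Y + D.k1 + j, by omega, fun h => hne ?_⟩
  have h1 := hT.fs s hs hN (D.k1 + j) (by omega)
  have h2 := hT.f2 s' hs' hN' j hj
  have e1 : s + ((c.t.Y + D.k1 + j : ℕ) : ℤ) = s + c.t.Y + ((D.k1 + j : ℕ) : ℤ) := by
    push_cast
    ring
  have e2 : s' + ((c.t.Y + D.k1 + j : ℕ) : ℤ) = s' + c.t.Y + D.k1 + j := by
    push_cast
    ring
  rw [e1, e2, h1, h2] at h
  unfold xx
  rw [if_neg (by omega), c.ye, ← h]
  congr 1
  omega

end

theorem pf_NEA (hOCL : T_OCL) (hOCR : T_OCR) : T_NEA := by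
  intro d m c D B z col hT hcol q hq1 hq2 i
  by_contra hno
  push Not at hno
  have hL : D.L = D.n + D.N0 := rfl
  have hkv : D.kv = c.t.Y + D.N0 + 1 + D.K := rfl
  have hbig := D.big
  have hK2 := D.K2
  have hb0 := D.fr.b0
  have hb1 := D.fr.b1
  have hb2 := D.fr.b2
  have hlen := D.fr.len
  have hY := c.t.Y0
  have hq0 : 0 < q := by omega
  have hm := c.t.m2 q hq0
  have hq2L : q < 2 * D.L := by omega
  by_cases hc1 : ∃ s ∈ B, i ≤ s ∧ s + q + c.t.Y + D.K ≤ i + m q
  · obtain ⟨s, hs, ha, hb⟩ := hc1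
    have hsq : s + q ∈ B := by
      refine (hOCR d m c D B z col hT (s + q) (fun j hj => ?_)).1 (fun j hj => ?_)
      · have h1 := hno (s + j) (by omega) (by omega)
        rw [hT.y0 s hs j hj] at h1
        rw [← h1]
        congr 1
        ring
      · have h1 := hno (s + c.t.Y + j) (by omega) (by omega)
        rw [mark hT hs hj] at h1
        rw [← h1]
        congr 1
        ring
    have hNq : Nx B s q := gapEq hT hs hsq hq0 hq2L
    by_cases hsub : i ≤ s + c.t.Y - D.K
    · -- the previous tile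
      obtain ⟨s0, hs0, g0, hg0, hN0, hlt, hle⟩ := prevPt hT s
      have hs0g : s0 + g0 = s := by
        by_contra hne
        exact hN0.2.2 s hlt (by omega) hs
      obtain ⟨c1, k1, hk1, p1⟩ := content hT hs0 hN0
      obtain ⟨c2, k2, hk2, p2⟩ := content hT hs hNq
      have heq : col s0 = col s := by
        refine D.cc.suf _ k1 _ k2 c1 hk1 c2 hk2 (fun x hx hxK => ?_)
        rw [← p1 x hx, ← p2 x hx]
        have h1 := hno (s0 + g0 + c.t.Y - D.n + x) (by omega) (by omega)
        rw [← h1]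
        congr 1
        omega
      have := hcol s0 hs0 g0 hN0
      rw [hs0g] at this
      exact this heq.symm
    · -- the first letters
      have hvis : ∀ x : ℕ, x < D.kv → z (s + q + x) = z (s + x) := by
        intro x hx
        have h1 := hno (s + x) (by omega) (by omega)
        rw [← h1]
        congr 1
        ring
      obtain ⟨g', hg', hN'⟩ := hT.next (s + q) hsq
      have hsame : q = g' := by
        rcases gapLen hT hs hNq with h1 | h1
        · rcases hg' with h2 | h2
          · omega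
          · exfalso
            rw [h1] at hNq
            rw [h2] at hN'
            obtain ⟨x, hx, hne⟩ := frames hT hs hsq hNq hN'
            exact hne (hvis x hx).symm
        · rcases hg' with h2 | h2
          · exfalso
            rw [h1] at hNq
            rw [h2] at hN'
            obtain ⟨x, hx, hne⟩ := frames hT hsq hs hN' hNq
            exact hne (hvis x hx)
          · omega
      have hqL := gapLen hT hs hNq
      obtain ⟨c1, k1, hk1, p1⟩ := content hT hs hNq
      obtain ⟨c2, k2, hk2, p2⟩ := content hT hsq hN'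
      have heq : col s = col (s + q) := by
        refine D.cc.pre _ k1 _ k2 c1 hk1 c2 hk2 (fun x hx hxK => ?_)
        rw [← p1 x hx, ← p2 x hx]
        have h1 := hno (s + q + c.t.Y - D.n + x) (by omega) (by omega)
        rw [← h1]
        congr 1
        omega
      exact hcol s hs q hNq heq.symm
  · -- no marker is copied
    obtain ⟨s0, hs0, g0, hg0, hN0, hlt, hle⟩ := prevPt hT i
    have hs1 : s0 + g0 ∈ B := hN0.2.1
    have hfar : i + m q < s0 + g0 + q + c.t.Y + D.K := by
      by_contra hcon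
      exact hc1 ⟨s0 + g0, hs1, hle, by omega⟩
    have hcopy : ∀ t : ℤ, s0 + g0 + c.t.Y - D.n - D.K ≤ t → t < s0 + g0 + c.t.Y - D.n + c.t.Y +
        D.K → z (t + q) = z t := by
      intro t h1 h2
      exact hno t (by omega) (by omega)
    obtain ⟨s2, hs2, g2, hN2, he2⟩ := (hOCL d m c D B z col hT (s0 + g0 + c.t.Y - D.n + q)
      (fun j hj => by
        have h1 := hcopy (s0 + g0 + c.t.Y - D.n + j) (by omega) (by omega)
        rw [startE hT hs0 hN0 hj] at h1
        rw [← h1]
        congr 1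
        ring)).1
      (fun j hj => by
        have h1 := hcopy (s0 + g0 + c.t.Y - D.n - 1 - j) (by omega) (by omega)
        rw [before hT hs0 hN0 hj] at h1
        rw [← h1]
        congr 1
        ring)
    have hs1q : s0 + g0 + q ∈ B := by
      have e : s0 + g0 + q = s2 + g2 := by omega
      rw [e]
      exact hN2.2.1
    have hNq : Nx B (s0 + g0) q := gapEq hT hs1 hs1q hq0 hq2L
    obtain ⟨c1, k1, hk1, p1⟩ := content hT hs0 hN0
    obtain ⟨c2, k2, hk2, p2⟩ := content hT hs1 hNq
    have heq : col s0 = col (s0 + g0) := by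
      refine D.cc.pre _ k1 _ k2 c1 hk1 c2 hk2 (fun x hx hxK => ?_)
      rw [← p1 x hx, ← p2 x hx]
      have h1 := hcopy (s0 + g0 + c.t.Y - D.n + x) (by omega) (by omega)
      rw [← h1]
      congr 1
      ring
    exact hcol s0 hs0 g0 hN0 heq.symm

end Pool.Agent.H49.PG
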